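import Mathlib

/-!
# Project BS: the parametrisation `c = θ + θ⁻¹` of a finite field of characteristic two
-/

set_option autoImplicit false

namespace Pool.Agent.V7H58.BS

open Finset Polynomial

set_option linter.unusedSectionVars false

variable {F : Type} [Field F] [Fintype F] [CharP F 2]

/-- the algebraic closure -/
abbrev Om (F : Type) [Field F] := AlgebraicClosure F

/-- the inclusion -/
noncomputable abbrev io (a : F) : Om F := algebraMap F (Om F) a

instance : CharP (Om F) 2 := charP_of_injective_algebraMap (algebraMap F (Om F)).injective 2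

omit [Fintype F] [CharP F 2] in
lemma io_inj {a b : F} (h : io a = io b) : a = b := (algebraMap F (Om F)).injective h

omit [CharP F 2] in
lemma io_pow (a : F) : (io a) ^ Fintype.card F = io a := by
  unfold io
  rw [← map_pow, FiniteField.pow_card]

omit [CharP F 2] in
/-- the elements of the closure which are fixed by Frobenius are in `F` -/
lemma rng {x : Om F} (h : x ^ Fintype.card F = x) : ∃ a : F, io a = x := by
  have h1 : ((Multiset.map (fun a : F => (X - C a : F[X]))
      (X ^ Fintype.card F - X : F[X]).roots).prod) = X ^ Fintype.card F - X := by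
    apply prod_multiset_X_sub_C_of_monic_of_roots_card_eq
    · apply monic_X_pow_sub
      rw [degree_X]
      exact_mod_cast Fintype.one_lt_card
    · rw [FiniteField.roots_X_pow_card_sub_X,
        FiniteField.X_pow_card_sub_X_natDegree_eq F Fintype.one_lt_card]
      rfl
  rw [FiniteField.roots_X_pow_card_sub_X] at h1
  have h2 := congrArg (fun p : F[X] => aeval x p) h1
  simp only [map_sub, map_pow, aeval_X] at h2
  rw [h, sub_self] at h2
  have h3 : (∏ a : F, (x - io a)) = 0 := by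
    rw [← h2]
    change _ = aeval x (∏ a : F, (X - C a : F[X]))
    rw [map_prod]
    refine prod_congr rfl fun a _ => ?_
    rw [map_sub, aeval_X, aeval_C]
  obtain ⟨a, -, ha⟩ := prod_eq_zero_iff.1 h3
  exact ⟨a, (sub_eq_zero.1 ha).symm⟩

/-- `x + x⁻¹` determines `x` up to inversion -/
lemma D_eq {x y : Om F} (hx : x ≠ 0) (hy : y ≠ 0) (h : x + x⁻¹ = y + y⁻¹) :
    x = y ∨ x * y = 1 := by
  have h1 : (x - y) * (x * y - 1) = 0 := by
    field_simp at h
    linear_combination h
  rcases mul_eq_zero.1 h1 with h2 | h2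
  · exact Or.inl (sub_eq_zero.1 h2)
  · exact Or.inr (sub_eq_zero.1 h2)

omit [Fintype F] [CharP F 2] in
lemma ex_theta (c : Om F) : ∃ x : Om F, x ≠ 0 ∧ x + x⁻¹ = c := by
  have h1 : (X ^ 2 - C c * X + 1 : (Om F)[X]).degree ≠ 0 := by
    have : (X ^ 2 - C c * X + 1 : (Om F)[X]) = C 1 * X ^ 2 + C (-c) * X + C 1 := by
      rw [C_neg, C_1]
      ring
    rw [this, degree_quadratic one_ne_zero]
    decide
  obtain ⟨x, hx⟩ := IsAlgClosed.exists_root _ h1
  have hx' : x ^ 2 - c * x + 1 = 0 := by simpa [IsRoot] using hx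
  have hx0 : x ≠ 0 := by
    rintro rfl
    simp at hx'
  refine ⟨x, hx0, ?_⟩
  field_simp
  linear_combination hx'

/-- cubes -/
lemma D_cube {x : Om F} (hx : x ≠ 0) :
    (x + x⁻¹) ^ 3 + (x + x⁻¹) = x ^ 3 + (x ^ 3)⁻¹ := by
  have h2 : (2 : Om F) = 0 := CharTwo.two_eq_zero
  field_simp
  linear_combination (2 * x ^ 4 + 2 * x ^ 2) * h2

variable {n : ℕ}

lemma add_q (hq : Fintype.card F = 2 ^ n) (x y : Om F) :
    (x + y) ^ Fintype.card F = x ^ Fintype.card F + y ^ Fintype.card F := by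
  rw [hq]
  exact add_pow_char_pow x y 2 n

/-- the two cases -/
lemma dich (hq : Fintype.card F = 2 ^ n) {c : F} {x : Om F} (hx : x ≠ 0)
    (h : x + x⁻¹ = io c) : x ^ Fintype.card F = x ∨ x ^ (Fintype.card F + 1) = 1 := by
  have h1 : x ^ Fintype.card F + (x ^ Fintype.card F)⁻¹ = x + x⁻¹ := by
    rw [← inv_pow, ← add_q hq, h, io_pow]
  rcases D_eq (pow_ne_zero _ hx) hx h1 with h2 | h2
  · exact Or.inl h2
  · exact Or.inr (by rw [pow_succ]; exact h2)

/-- `x + x⁻¹` is in `F` in both cases -/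
lemma D_mem (hq : Fintype.card F = 2 ^ n) {x : Om F}
    (h : x ^ Fintype.card F = x ∨ x ^ (Fintype.card F + 1) = 1) : ∃ a : F, io a = x + x⁻¹ := by
  apply rng
  rw [add_q hq, inv_pow]
  rcases h with h | h
  · rw [h]
  · rw [pow_succ] at h
    have h1 : x ^ Fintype.card F = x⁻¹ := eq_inv_of_mul_eq_one_left h
    rw [h1, inv_inv, add_comm]

omit [Fintype F] in
lemma sq_one {x : Om F} (h : x * x = 1) : x = 1 := by
  have h1 : (x + 1) ^ 2 = 0 := by
    rw [CharTwo.add_sq, sq, h, one_pow, CharTwo.add_self_eq_zero]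
  exact CharTwo.add_eq_zero.1 (pow_eq_zero_iff two_ne_zero |>.1 h1)

/-- only `1` is in both cases -/
lemma both {x : Om F} (h1 : x ^ Fintype.card F = x)
    (h2 : x ^ (Fintype.card F + 1) = 1) : x = 1 := by
  rw [pow_succ, h1] at h2
  exact sq_one h2

/-- a solution of `r³ + r = c`, `c = x + x⁻¹`, comes from a cube root of `x` -/
lemma cube_root {c r : F} {x : Om F} (hx : x ≠ 0) (h : x + x⁻¹ = io c) (hr : r ^ 3 + r = c) :
    ∃ y : Om F, y ≠ 0 ∧ y + y⁻¹ = io r ∧ y ^ 3 = x := by
  obtain ⟨y, hy, hyr⟩ := ex_theta (io r)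
  have h1 : y ^ 3 + (y ^ 3)⁻¹ = x + x⁻¹ := by
    rw [← D_cube hy, hyr, h, ← hr]
    unfold io
    rw [map_add, map_pow]
  rcases D_eq (pow_ne_zero 3 hy) hx h1 with h2 | h2
  · exact ⟨y, hy, hyr, h2⟩
  · refine ⟨y⁻¹, inv_ne_zero hy, ?_, ?_⟩
    · rw [inv_inv, add_comm, hyr]
    · rw [inv_pow]
      exact (eq_inv_of_mul_eq_one_right h2).symm

lemma of_cube_root {c r : F} {x y : Om F} (hy : y ≠ 0) (h : x + x⁻¹ = io c)
    (hr : io r = y + y⁻¹) (hyx : y ^ 3 = x) : r ^ 3 + r = c := by
  apply io_inj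
  unfold io
  rw [map_add, map_pow]
  change (io r) ^ 3 + io r = io c
  rw [hr, D_cube hy, hyx, h]

end Pool.Agent.V7H58.BS
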