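import Pool.Agent.V7H85.BS.Base
import Pool.Agent.V7H58.BS.Setup

/-!
# Project BS, piece GD: the properties of the function `G`
-/

set_option autoImplicit false
set_option linter.unusedSectionVars false

namespace Pool.Agent.V7H58.BS

open Finset Polynomial
open Pool.Agent.V7H85.BS
open Pool.Agent.Results.MP_2c585b_nt.GoldInverseSum (chi chi_ne_one chi_equiv)

section

variable {F : Type} [Field F] [Fintype F] [DecidableEq F] [CharP F 2] {n : ℕ}

/-- the number of the solutions of `r³ + r = c` -/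
noncomputable def Nc (c : F) : ℕ := (univ.filter fun r : F => r ^ 3 + r = c).card

lemma Gf_eq (c : F) : Gf F c = (Nc c : ℂ) - 1 := rfl

/-- arithmetic of `Q = 2 ^ n`, `n` odd -/
lemma arith (hn : Odd n) : ∃ k : ℕ, 2 ^ n + 1 = 3 * k := by
  obtain ⟨m, rfl⟩ := hn
  induction m with
  | zero => exact ⟨1, by norm_num⟩
  | succ m ih =>
    obtain ⟨k, hk⟩ := ih
    refine ⟨4 * k - 1, ?_⟩
    have h1 : 2 ^ (2 * (m + 1) + 1) = 4 * 2 ^ (2 * m + 1) := by ring
    rw [h1]
    have h2 : 0 < 2 ^ (2 * m + 1) := by positivity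
    generalize 2 ^ (2 * m + 1) = z at hk h2 ⊢
    omega

lemma pow_of_fix {Q : ℕ} {L : Type} [Field L] {x : L} (hx : x ≠ 0) (h : x ^ Q = x) (hQ : 1 ≤ Q) :
    x ^ (2 * Q - 1) = x := by
  have h1 : x ^ (2 * Q - 1) * x = x * x := by
    rw [← pow_succ, show 2 * Q - 1 + 1 = Q + Q by omega, pow_add, h]
  exact mul_right_cancel₀ hx h1

/-- the split case -/
lemma N_split (hn : Odd n) (hq : Fintype.card F = 2 ^ n) {c : F} {x : Om F} (hx : x ≠ 0)
    (hx1 : x ≠ 1) (h : x + x⁻¹ = io c) (hf : x ^ Fintype.card F = x) : Nc c = 1 := by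
  obtain ⟨k, hk⟩ := arith hn
  have hQ : 1 ≤ Fintype.card F := Fintype.card_pos
  have h2k : 2 * Fintype.card F - 1 = 3 * (2 * k - 1) := by
    rw [hq]
    omega
  have hk1 : 1 ≤ k := by
    have : 0 < 2 ^ n := by positivity
    omega
  set y := x ^ (2 * k - 1) with hy
  have hy0 : y ≠ 0 := pow_ne_zero _ hx
  have hy3 : y ^ 3 = x := by
    rw [hy, ← pow_mul, mul_comm (2 * k - 1) 3, ← h2k]
    exact pow_of_fix hx hf hQ
  have hyf : y ^ Fintype.card F = y := by
    rw [hy, ← pow_mul, mul_comm, pow_mul, hf]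
  obtain ⟨r0, hr0⟩ := D_mem hq (Or.inl hyf)
  unfold Nc
  rw [card_eq_one]
  refine ⟨r0, ?_⟩
  ext r
  rw [mem_filter, mem_singleton]
  constructor
  · rintro ⟨-, hr⟩
    obtain ⟨z, hz, hzr, hz3⟩ := cube_root hx h hr
    have hzf : z ^ Fintype.card F = z := by
      rcases dich hq hz hzr with h1 | h1
      · exact h1
      · exfalso
        apply hx1
        apply both hf
        rw [← hz3, ← pow_mul, mul_comm, pow_mul, h1, one_pow]
    have hzy : z = y := by
      rw [← pow_of_fix hz hzf hQ, h2k, pow_mul, hz3]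
    apply io_inj
    rw [← hzr, hzy, hr0]
  · rintro rfl
    exact ⟨mem_univ _, of_cube_root hy0 h hr0 hy3⟩

/-- a primitive cube root of unity -/
lemma ex_w (F : Type) [Field F] [CharP F 2] : ∃ w : Om F, w ≠ 1 ∧ w ^ 2 + w + 1 = 0 := by
  obtain ⟨w, hw0, hw⟩ := ex_theta (F := F) (1 : Om F)
  have h1 : w ^ 2 + w + 1 = 0 := by
    have h2 : (2 : Om F) = 0 := CharTwo.two_eq_zero
    field_simp at hw
    linear_combination hw + w * h2
  refine ⟨w, ?_, h1⟩
  rintro rfl
  have h2 : (2 : Om F) = 0 := CharTwo.two_eq_zero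
  have h3 : (1 : Om F) = 0 := by linear_combination h1 - h2
  exact one_ne_zero h3

/-- the nonsplit case -/
lemma N_ns {k : ℕ} (hk : 2 ^ n + 1 = 3 * k) (hq : Fintype.card F = 2 ^ n) {c : F} {x : Om F}
    (hx : x ≠ 0) (hx1 : x ≠ 1) (h : x + x⁻¹ = io c) (hf : x ^ (Fintype.card F + 1) = 1) :
    (x ^ k = 1 → Nc c = 3) ∧ (x ^ k ≠ 1 → Nc c = 0) := by
  have hroot : ∀ r : F, r ^ 3 + r = c → ∃ y : Om F, y ≠ 0 ∧ y + y⁻¹ = io r ∧ y ^ 3 = x ∧
      y ^ (Fintype.card F + 1) = 1 := by
    intro r hr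
    obtain ⟨y, hy, hyr, hy3⟩ := cube_root hx h hr
    refine ⟨y, hy, hyr, hy3, ?_⟩
    rcases dich hq hy hyr with h1 | h1
    · exfalso
      apply hx1
      refine both ?_ hf
      rw [← hy3, ← pow_mul, mul_comm, pow_mul, h1]
    · exact h1
  have hk' : Fintype.card F + 1 = 3 * k := by rw [hq]; exact hk
  constructor
  · intro hxk
    obtain ⟨w, hw1, hw⟩ := ex_w F
    obtain ⟨y, hy3⟩ := IsAlgClosed.exists_pow_nat_eq x (by norm_num : 0 < 3)
    have hy0 : y ≠ 0 := by
      rintro rfl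
      apply hx
      rw [← hy3]
      norm_num
    have hw0 : w ≠ 0 := by
      rintro rfl
      simp at hw
    have hw3 : w ^ 3 = 1 := by linear_combination (w - 1) * hw
    have hD : ∀ z : Om F, z ^ 3 = x → ∃ r : F, io r = z + z⁻¹ := by
      intro z hz3
      apply D_mem hq
      right
      rw [hk', pow_mul, hz3, hxk]
    obtain ⟨r0, hr0⟩ := hD y hy3
    obtain ⟨r1, hr1⟩ := hD (y * w) (by rw [mul_pow, hy3, hw3, mul_one])
    obtain ⟨r2, hr2⟩ := hD (y * w ^ 2) (by rw [mul_pow, hy3, ← pow_mul, mul_comm 2 3, pow_mul, hw3,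
      one_pow, mul_one])
    have hne : ∀ z z' : Om F, z ≠ 0 → z' ≠ 0 → z ^ 3 = x → z' ^ 3 = x → z ≠ z' →
        z + z⁻¹ ≠ z' + z'⁻¹ := by
      intro z z' hz hz' hz3 hz3' hzz hD
      rcases D_eq hz hz' hD with h1 | h1
      · exact hzz h1
      · apply hx1
        apply sq_one
        calc x * x = z ^ 3 * z' ^ 3 := by rw [hz3, hz3']
          _ = (z * z') ^ 3 := by ring
          _ = 1 := by rw [h1, one_pow]
    have hyw0 : y * w ≠ 0 := mul_ne_zero hy0 hw0
    have hyw20 : y * w ^ 2 ≠ 0 := mul_ne_zero hy0 (pow_ne_zero 2 hw0)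
    have hyw3 : (y * w) ^ 3 = x := by rw [mul_pow, hy3, hw3, mul_one]
    have hyw23 : (y * w ^ 2) ^ 3 = x := by
      rw [mul_pow, hy3, ← pow_mul, mul_comm 2 3, pow_mul, hw3, one_pow, mul_one]
    have e01 : y ≠ y * w := by
      intro h1
      apply hw1
      have : y * w = y * 1 := by rw [mul_one]; exact h1.symm
      exact mul_left_cancel₀ hy0 this
    have e12 : y * w ≠ y * w ^ 2 := by
      intro h1
      apply hw1
      have : y * w * w = y * w * 1 := by
        calc y * w * w = y * w ^ 2 := by ring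
          _ = y * w := h1.symm
          _ = y * w * 1 := (mul_one _).symm
      exact mul_left_cancel₀ hyw0 this
    have e02 : y ≠ y * w ^ 2 := by
      intro h1
      apply hw1
      have h4 : w ^ 2 = 1 := by
        have : y * w ^ 2 = y * 1 := by rw [mul_one]; exact h1.symm
        exact mul_left_cancel₀ hy0 this
      calc w = w ^ 2 * w := by rw [h4, one_mul]
        _ = w ^ 3 := by ring
        _ = 1 := hw3
    unfold Nc
    rw [card_eq_three]
    refine ⟨r0, r1, r2, ?_, ?_, ?_, ?_⟩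
    · intro h1
      refine hne y (y * w) hy0 hyw0 hy3 hyw3 e01 ?_
      rw [← hr0, ← hr1, h1]
    · intro h1
      refine hne y (y * w ^ 2) hy0 hyw20 hy3 hyw23 e02 ?_
      rw [← hr0, ← hr2, h1]
    · intro h1
      refine hne (y * w) (y * w ^ 2) hyw0 hyw20 hyw3 hyw23 e12 ?_
      rw [← hr1, ← hr2, h1]
    · ext r
      simp only [mem_filter, mem_univ, true_and, mem_insert, mem_singleton]
      constructor
      · intro hr
        obtain ⟨z, hz, hzr, hz3, -⟩ := hroot r hr
        have h5 : (z - y) * (z - y * w) * (z - y * w ^ 2) = 0 := by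
          have : (z - y) * (z - y * w) * (z - y * w ^ 2) = z ^ 3 - y ^ 3 := by
            linear_combination (-(z ^ 2 * y) + z * y ^ 2 * w) * hw + (-y ^ 3) * hw3
          rw [this, hz3, hy3, sub_self]
        rcases mul_eq_zero.1 h5 with h5 | h5
        · rcases mul_eq_zero.1 h5 with h5 | h5
          · left
            apply io_inj
            rw [hr0, ← hzr, sub_eq_zero.1 h5]
          · right; left
            apply io_inj
            rw [hr1, ← hzr, sub_eq_zero.1 h5]
        · right; right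
          apply io_inj
          rw [hr2, ← hzr, sub_eq_zero.1 h5]
      · rintro (rfl | rfl | rfl)
        · exact of_cube_root hy0 h hr0 hy3
        · exact of_cube_root hyw0 h hr1 hyw3
        · exact of_cube_root hyw20 h hr2 hyw23
  · intro hxk
    unfold Nc
    rw [card_eq_zero, filter_eq_empty_iff]
    intro r _ hr
    obtain ⟨z, hz, hzr, hz3, hz1⟩ := hroot r hr
    apply hxk
    rw [← hz3, ← pow_mul, ← hk', hz1]

lemma G_zero : Gf F 0 = 1 := by
  have h1 : Nc (0 : F) = 2 := by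
    unfold Nc
    rw [card_eq_two]
    refine ⟨0, 1, zero_ne_one, ?_⟩
    ext r
    simp only [mem_filter, mem_univ, true_and, mem_insert, mem_singleton]
    have h2 : (2 : F) = 0 := CharTwo.two_eq_zero
    constructor
    · intro h
      have h3 : r * (r + 1) ^ 2 = 0 := by linear_combination h + r ^ 2 * h2
      rcases mul_eq_zero.1 h3 with h4 | h4
      · exact Or.inl h4
      · exact Or.inr (CharTwo.add_eq_zero.1 (pow_eq_zero_iff two_ne_zero |>.1 h4))
    · rintro (rfl | rfl)
      · norm_num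
      · rw [one_pow]
        exact CharTwo.add_self_eq_zero 1
  rw [Gf_eq, h1]
  norm_num

lemma c_zero {c : F} (h : (1 : Om F) + 1⁻¹ = io c) : c = 0 := by
  apply io_inj
  rw [← h, inv_one, CharTwo.add_self_eq_zero]
  unfold io
  rw [map_zero]

open Classical in
lemma G_fix (hn : Odd n) (hq : Fintype.card F = 2 ^ n) {c : F} {x : Om F} (hx : x ≠ 0)
    (h : x + x⁻¹ = io c) (hf : x ^ Fintype.card F = x) : Gf F c = if x = 1 then 1 else 0 := by
  split_ifs with h1
  · subst h1
    rw [c_zero h, G_zero]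
  · rw [Gf_eq, N_split hn hq hx h1 h hf]
    norm_num

open Classical in
lemma G_mu {k : ℕ} (hk : 2 ^ n + 1 = 3 * k) (hq : Fintype.card F = 2 ^ n) {c : F} {x : Om F}
    (h : x + x⁻¹ = io c) (hf : x ^ (Fintype.card F + 1) = 1) :
    Gf F c = if x = 1 then 1 else if x ^ k = 1 then 2 else -1 := by
  have hx : x ≠ 0 := by
    rintro rfl
    rw [zero_pow (Nat.succ_ne_zero _)] at hf
    exact zero_ne_one hf
  split_ifs with h1 h2
  · subst h1
    rw [c_zero h, G_zero]
  · rw [Gf_eq, (N_ns hk hq hx h1 h hf).1 h2]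
    norm_num
  · rw [Gf_eq, (N_ns hk hq hx h1 h hf).2 h2]
    norm_num

variable {e : AddChar F ℂ}

lemma e_fix (hsq : ∀ x, e (x ^ 2) = e x) {c : F} (hc : c ≠ 0) {x : Om F} (hx : x ≠ 0)
    (h : x + x⁻¹ = io c) (hf : x ^ Fintype.card F = x) : e c⁻¹ = 1 := by
  obtain ⟨a, rfl⟩ := rng hf
  have ha : a ≠ 0 := by
    rintro rfl
    apply hx
    unfold io
    rw [map_zero]
  have hac : a + a⁻¹ = c := by
    apply io_inj
    rw [← h]
    unfold io
    rw [map_add, map_inv₀]
  have h2 : (2 : F) = 0 := CharTwo.two_eq_zero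
  have ha1 : 1 + a ≠ 0 := by
    intro h3
    apply hc
    have : a = 1 := (CharTwo.add_eq_zero.1 h3).symm
    rw [← hac, this, inv_one, CharTwo.add_self_eq_zero]
  have h3 : c⁻¹ = ((1 + a)⁻¹) ^ 2 + (1 + a)⁻¹ := by
    have hc' : a * c = (1 + a) ^ 2 := by
      rw [← hac]
      have : a * (a + a⁻¹) = a ^ 2 + 1 := by field_simp
      rw [this]
      linear_combination (-a) * h2
    have hc2 : c⁻¹ = a / (1 + a) ^ 2 := by
      rw [← hc']
      field_simp
    rw [hc2]
    field_simp
    linear_combination (-1 : F) * h2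
  rw [h3, AddChar.map_add_eq_mul, hsq, ← AddChar.map_add_eq_mul, CharTwo.add_self_eq_zero,
    AddChar.map_zero_eq_one]

lemma e_mu (hne : e ≠ 1) (hsq : ∀ x, e (x ^ 2) = e x) {c : F} (hc : c ≠ 0) {x : Om F}
    (hx : x ≠ 0) (h : x + x⁻¹ = io c) (hf : x ^ (Fintype.card F + 1) = 1) : e c⁻¹ = -1 := by
  have h2 : (2 : F) = 0 := CharTwo.two_eq_zero
  have h1 := AS e hne hsq c⁻¹
  have h0 : ∀ ε : F, ¬ ε ^ 2 + ε = c⁻¹ := by
    intro ε hε
    have hε0 : ε ≠ 0 := by
      rintro rfl
      apply inv_ne_zero hc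
      rw [← hε]
      norm_num
    have hε1 : ε + 1 ≠ 0 := by
      intro h3
      apply inv_ne_zero hc
      rw [← hε]
      linear_combination ε * h3
    have hc3 : c * (ε * (ε + 1)) = 1 := by
      have : ε * (ε + 1) = c⁻¹ := by rw [← hε]; ring
      rw [this, mul_inv_cancel₀ hc]
    have ha : (ε + 1) / ε + ((ε + 1) / ε)⁻¹ = c := by
      rw [inv_div]
      field_simp
      linear_combination (ε ^ 2 + ε) * h2 - hc3
    have ha0 : io ((ε + 1) / ε) ≠ 0 := by
      unfold io
      rw [ne_eq, map_eq_zero]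
      exact div_ne_zero hε1 hε0
    have h4 : x + x⁻¹ = io ((ε + 1) / ε) + (io ((ε + 1) / ε))⁻¹ := by
      rw [h, ← ha]
      unfold io
      rw [map_add, map_inv₀]
    have hfix : x ^ Fintype.card F = x := by
      rcases D_eq hx ha0 h4 with h5 | h5
      · rw [h5, io_pow]
      · have h6 : x = (io ((ε + 1) / ε))⁻¹ := eq_inv_of_mul_eq_one_left h5
        rw [h6, inv_pow, io_pow]
    have hx1 := both hfix hf
    apply hc
    rw [hx1] at h
    exact c_zero h
  rw [sum_eq_zero fun ε _ => if_neg (h0 ε)] at h1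
  linear_combination (-1 : ℂ) * h1

lemma sum_two {P : F → Prop} [DecidablePred P] {c1 c2 : F} (G : F → ℂ)
    (h : ∀ c, P c ↔ c = c1 ∨ c = c2) (hne : c1 ≠ c2) :
    (∑ c, if P c then G c else 0) = G c1 + G c2 := by
  rw [← sum_filter]
  have : univ.filter P = {c1, c2} := by
    ext c
    simp only [mem_filter, mem_univ, true_and, mem_insert, mem_singleton]
    exact h c
  rw [this, sum_pair hne]

/-- the quadratic equation of the addition formula -/
lemma quad {A B c : F} {x y : Om F} (hx : x ≠ 0) (hy : y ≠ 0) (hA : x + x⁻¹ = io A)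
    (hB : y + y⁻¹ = io B) : c ^ 2 + A * B * c + (A + B) ^ 2 = 0 ↔
      io c = x * y + (x * y)⁻¹ ∨ io c = x * y⁻¹ + (x * y⁻¹)⁻¹ := by
  have h1 : io (c ^ 2 + A * B * c + (A + B) ^ 2) =
      (io c + (x * y + (x * y)⁻¹)) * (io c + (x * y⁻¹ + (x * y⁻¹)⁻¹)) := by
    have h2 : io (c ^ 2 + A * B * c + (A + B) ^ 2) =
        (io c) ^ 2 + io A * io B * io c + (io A + io B) ^ 2 := by
      unfold io
      simp only [map_add, map_mul, map_pow]
    rw [h2, ← hA, ← hB, CharTwo.add_sq, CharTwo.add_sq, CharTwo.add_sq]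
    generalize io c = C
    field_simp
    ring
  constructor
  · intro h
    rw [h] at h1
    unfold io at h1
    rw [map_zero] at h1
    rcases mul_eq_zero.1 h1.symm with h2 | h2
    · exact Or.inl (CharTwo.add_eq_zero.1 h2)
    · exact Or.inr (CharTwo.add_eq_zero.1 h2)
  · intro h
    apply io_inj
    rw [h1]
    unfold io
    rw [map_zero, mul_eq_zero]
    rcases h with h | h
    · left
      exact CharTwo.add_eq_zero.2 h
    · right
      exact CharTwo.add_eq_zero.2 h

/-- the two roots are different -/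
lemma roots_ne {x y : Om F} (hx : x ≠ 0) (hy : y ≠ 0) (hx1 : x ≠ 1) (hy1 : y ≠ 1) :
    x * y + (x * y)⁻¹ ≠ x * y⁻¹ + (x * y⁻¹)⁻¹ := by
  intro h
  rcases D_eq (mul_ne_zero hx hy) (mul_ne_zero hx (inv_ne_zero hy)) h with h1 | h1
  · apply hy1
    apply sq_one
    have h2 : y = y⁻¹ := mul_left_cancel₀ hx h1
    calc y * y = y⁻¹ * y := by rw [← h2]
      _ = 1 := inv_mul_cancel₀ hy
  · apply hx1
    apply sq_one
    have h2 : x * y * (x * y⁻¹) = x * x := by field_simp
    rw [← h2, h1]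

/-- products of a fixed element and an element of norm one -/
lemma mixed {z t : Om F} (hz : z ≠ 0) (hz1 : z ≠ 1) (ht1 : t ≠ 1)
    (hzf : z ^ Fintype.card F = z) (htf : t ^ (Fintype.card F + 1) = 1)
    (h : (z * t) ^ Fintype.card F = z * t ∨ (z * t) ^ (Fintype.card F + 1) = 1) : False := by
  rcases h with h | h
  · rw [mul_pow, hzf] at h
    exact ht1 (both (mul_left_cancel₀ hz h) htf)
  · rw [mul_pow, htf, mul_one] at h
    exact hz1 (both hzf h)


/-- the addition formula of the cubic character, as a real character -/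
lemma psi_add {a b : Om F} (ha : a ^ 3 = 1) (hb : b ^ 3 = 1) (ha1 : a ≠ 1) (hb1 : b ≠ 1)
    (hab : a * b ≠ 1) : a = b := by
  have h1 : a ^ 2 + a + 1 = 0 := by
    have : (a - 1) * (a ^ 2 + a + 1) = 0 := by linear_combination ha
    rcases mul_eq_zero.1 this with h | h
    · exact absurd (sub_eq_zero.1 h) ha1
    · exact h
  have h2 : (b - 1) * ((b - a) * (b - a ^ 2)) = 0 := by
    have : (b - 1) * ((b - a) * (b - a ^ 2)) = b ^ 3 - 1 := by
      linear_combination (b - b ^ 2) * h1 + (b - 1) * ha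
    rw [this, hb, sub_self]
  rcases mul_eq_zero.1 h2 with h | h
  · exact absurd (sub_eq_zero.1 h) hb1
  · rcases mul_eq_zero.1 h with h | h
    · exact (sub_eq_zero.1 h).symm
    · exfalso
      apply hab
      rw [sub_eq_zero.1 h, ← pow_succ', ha]

/-- the addition formula -/
lemma add_formula (hn : Odd n) (hq : Fintype.card F = 2 ^ n) (hne : e ≠ 1)
    (hsq : ∀ x, e (x ^ 2) = e x) (A B : F) :
    Gf F A * Gf F B = (∑ c, if c ^ 2 + A * B * c + (A + B) ^ 2 = 0 then Gf F c else 0) -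
      (if A = B ∧ A ≠ 0 then e A⁻¹ else 0) := by
  classical
  by_cases hA0 : A = 0
  · subst hA0
    have h1 : ∀ c : F, (c ^ 2 + 0 * B * c + (0 + B) ^ 2 = 0) ↔ c = B := by
      intro c
      rw [zero_mul, zero_mul, add_zero, zero_add, CharTwo.add_eq_zero, sq_inj]
    simp only [h1, sum_ite_eq', mem_univ, if_true, ne_eq, not_true, and_false, if_false, sub_zero]
    rw [G_zero, one_mul]
  by_cases hB0 : B = 0
  · subst hB0
    have h1 : ∀ c : F, (c ^ 2 + A * 0 * c + (A + 0) ^ 2 = 0) ↔ c = A := by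
      intro c
      rw [mul_zero, zero_mul, add_zero, add_zero, CharTwo.add_eq_zero, sq_inj]
    simp only [h1, sum_ite_eq', mem_univ, if_true]
    rw [G_zero, mul_one, if_neg fun h => hA0 h.1, sub_zero]
  obtain ⟨x, hx, hxA⟩ := ex_theta (io A)
  obtain ⟨y, hy, hyB⟩ := ex_theta (io B)
  have hx1 : x ≠ 1 := by
    rintro rfl
    exact hA0 (c_zero hxA)
  have hy1 : y ≠ 1 := by
    rintro rfl
    exact hB0 (c_zero hyB)
  have hyi : y⁻¹ ≠ 0 := inv_ne_zero hy
  have hyi1 : y⁻¹ ≠ 1 := fun h => hy1 (inv_eq_one.1 h)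
  have hxy0 := mul_ne_zero hx hy
  have hxyi0 := mul_ne_zero hx hyi
  have hAB : A = B ↔ (x = y ∨ x * y = 1) := by
    constructor
    · intro h
      apply D_eq hx hy
      rw [hxA, hyB, h]
    · rintro (h | h)
      · apply io_inj
        rw [← hxA, ← hyB, h]
      · apply io_inj
        have : x = y⁻¹ := eq_inv_of_mul_eq_one_left h
        rw [← hxA, ← hyB, this, inv_inv, add_comm]
  have hxyi1 : x * y⁻¹ = 1 ↔ x = y := by
    rw [mul_inv_eq_one₀ hy]
  have hnot : ¬ (x = y ∧ x * y = 1) := by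
    rintro ⟨h1, h2⟩
    subst h1
    exact hx1 (sq_one h2)
  have key : ∀ c1 c2 : F, io c1 = x * y + (x * y)⁻¹ → io c2 = x * y⁻¹ + (x * y⁻¹)⁻¹ →
      (∑ c, if c ^ 2 + A * B * c + (A + B) ^ 2 = 0 then Gf F c else 0) = Gf F c1 + Gf F c2 := by
    intro c1 c2 h1 h2
    apply sum_two
    · intro c
      rw [quad hx hy hxA hyB, ← h1, ← h2]
      constructor
      · rintro (h | h)
        · exact Or.inl (io_inj h)
        · exact Or.inr (io_inj h)
      · rintro (h | h)
        · exact Or.inl (by rw [h])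
        · exact Or.inr (by rw [h])
    · intro h
      apply roots_ne hx hy hx1 hy1
      rw [← h1, ← h2, h]
  have none : (∀ c : F, io c ≠ x * y + (x * y)⁻¹) → (∀ c : F, io c ≠ x * y⁻¹ + (x * y⁻¹)⁻¹) →
      (∑ c, if c ^ 2 + A * B * c + (A + B) ^ 2 = 0 then Gf F c else 0) = 0 := by
    intro h1 h2
    apply sum_eq_zero
    intro c _
    rw [if_neg]
    rw [quad hx hy hxA hyB]
    rintro (h | h)
    · exact h1 c h
    · exact h2 c h
  have dd : ∀ {z : Om F} {c : F}, z ≠ 0 → io c = z + z⁻¹ →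
      z ^ Fintype.card F = z ∨ z ^ (Fintype.card F + 1) = 1 := fun hz h => dich hq hz h.symm
  rcases dich hq hx hxA with hxf | hxm <;> rcases dich hq hy hyB with hyf | hym
  · -- both split
    have hyif : (y⁻¹) ^ Fintype.card F = y⁻¹ := by rw [inv_pow, hyf]
    have h1 : (x * y) ^ Fintype.card F = x * y := by rw [mul_pow, hxf, hyf]
    have h2 : (x * y⁻¹) ^ Fintype.card F = x * y⁻¹ := by rw [mul_pow, hxf, hyif]
    obtain ⟨c1, hc1⟩ := D_mem hq (Or.inl h1)
    obtain ⟨c2, hc2⟩ := D_mem hq (Or.inl h2)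
    rw [key c1 c2 hc1 hc2, G_fix hn hq hxy0 hc1.symm h1, G_fix hn hq hxyi0 hc2.symm h2,
      G_fix hn hq hx hxA hxf, if_neg hx1, zero_mul, e_fix hsq hA0 hx hxA hxf]
    by_cases h3 : x = y
    · have h4 : ¬ x * y = 1 := fun h => hnot ⟨h3, h⟩
      rw [if_neg h4, if_pos (hxyi1.2 h3), if_pos ⟨hAB.2 (Or.inl h3), hA0⟩]
      norm_num
    · rw [if_neg fun h => h3 (hxyi1.1 h)]
      by_cases h4 : x * y = 1
      · rw [if_pos h4, if_pos ⟨hAB.2 (Or.inr h4), hA0⟩]
        norm_num
      · rw [if_neg h4, if_neg]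
        · norm_num
        · rintro ⟨h5, -⟩
          rcases hAB.1 h5 with h6 | h6
          · exact h3 h6
          · exact h4 h6
  · -- `x` split, `y` not
    have hyim : (y⁻¹) ^ (Fintype.card F + 1) = 1 := by rw [inv_pow, hym, inv_one]
    rw [none (fun c hc => mixed hx hx1 hy1 hxf hym (dd hxy0 hc))
      (fun c hc => mixed hx hx1 hyi1 hxf hyim (dd hxyi0 hc)), G_fix hn hq hx hxA hxf, if_neg hx1,
      zero_mul, if_neg]
    · norm_num
    · rintro ⟨h5, -⟩
      rcases hAB.1 h5 with h6 | h6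
      · exact hx1 (both hxf (h6 ▸ hym))
      · have h7 : x = y⁻¹ := eq_inv_of_mul_eq_one_left h6
        exact hx1 (both hxf (h7 ▸ hyim))
  · -- `y` split, `x` not
    have hyif : (y⁻¹) ^ Fintype.card F = y⁻¹ := by rw [inv_pow, hyf]
    rw [none (fun c hc => mixed hy hy1 hx1 hyf hxm (by rw [mul_comm]; exact dd hxy0 hc))
      (fun c hc => mixed hyi hyi1 hx1 hyif hxm (by rw [mul_comm]; exact dd hxyi0 hc)),
      G_fix hn hq hy hyB hyf, if_neg hy1, mul_zero, if_neg]
    · norm_num
    · rintro ⟨h5, -⟩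
      rcases hAB.1 h5 with h6 | h6
      · exact hy1 (both hyf (h6 ▸ hxm))
      · have h7 : x = y⁻¹ := eq_inv_of_mul_eq_one_left h6
        exact hyi1 (both hyif (h7 ▸ hxm))
  · -- both nonsplit
    obtain ⟨k, hk⟩ := arith hn
    have hk' : Fintype.card F + 1 = 3 * k := by rw [hq]; exact hk
    have hyim : (y⁻¹) ^ (Fintype.card F + 1) = 1 := by rw [inv_pow, hym, inv_one]
    have h1 : (x * y) ^ (Fintype.card F + 1) = 1 := by rw [mul_pow, hxm, hym, one_mul]
    have h2 : (x * y⁻¹) ^ (Fintype.card F + 1) = 1 := by rw [mul_pow, hxm, hyim, one_mul]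
    obtain ⟨c1, hc1⟩ := D_mem hq (Or.inr h1)
    obtain ⟨c2, hc2⟩ := D_mem hq (Or.inr h2)
    rw [key c1 c2 hc1 hc2, G_mu hk hq hc1.symm h1, G_mu hk hq hc2.symm h2,
      G_mu hk hq hxA hxm, if_neg hx1, G_mu hk hq hyB hym, if_neg hy1, e_mu hne hsq hA0 hx hxA hxm]
    have ha3 : (x ^ k) ^ 3 = 1 := by rw [← pow_mul, mul_comm, ← hk', hxm]
    have hb3 : (y ^ k) ^ 3 = 1 := by rw [← pow_mul, mul_comm, ← hk', hym]
    have hAe : A = B → (if A = B ∧ A ≠ 0 then (-1 : ℂ) else 0) = -1 := fun h => if_pos ⟨h, hA0⟩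
    by_cases h3 : x = y
    · have h4 : ¬ x * y = 1 := fun h => hnot ⟨h3, h⟩
      rw [if_neg h4, if_pos (hxyi1.2 h3), hAe (hAB.2 (Or.inl h3))]
      subst h3
      rw [mul_pow]
      by_cases h5 : x ^ k = 1
      · rw [h5, mul_one, if_pos rfl]
        norm_num
      · rw [if_neg h5, if_neg fun h => h5 (sq_one h)]
        norm_num
    · rw [if_neg fun h => h3 (hxyi1.1 h)]
      by_cases h4 : x * y = 1
      · rw [if_pos h4, hAe (hAB.2 (Or.inr h4))]
        have h6 : y = x⁻¹ := eq_inv_of_mul_eq_one_right h4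
        subst h6
        rw [inv_inv, mul_pow, inv_pow]
        by_cases h5 : x ^ k = 1
        · rw [h5, mul_one, inv_one, if_pos rfl]
          norm_num
        · have h7 : ¬ x ^ k * x ^ k = 1 := fun h => h5 (sq_one h)
          have h8 : ¬ (x ^ k)⁻¹ = 1 := fun h => h5 (inv_eq_one.1 h)
          rw [if_neg h5, if_neg h7, if_neg h8]
          norm_num
      · rw [if_neg h4, if_neg (c := A = B ∧ A ≠ 0), mul_pow, mul_pow, inv_pow]
        · have hbk : y ^ k ≠ 0 := pow_ne_zero k hy
          by_cases h5 : x ^ k = 1 <;> by_cases h6 : y ^ k = 1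
          · rw [h5, h6, mul_one, inv_one, mul_one, if_pos rfl]
            norm_num
          · rw [h5, one_mul, one_mul, if_pos rfl, if_neg h6, if_neg fun h => h6 (inv_eq_one.1 h)]
            norm_num
          · rw [h6, inv_one, mul_one, if_neg h5, if_pos rfl]
            norm_num
          · rw [if_neg h5, if_neg h6]
            by_cases h7 : x ^ k * y ^ k = 1
            · rw [if_pos h7, if_neg]
              · norm_num
              · intro h8
                rw [mul_inv_eq_one₀ hbk] at h8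
                rw [h8] at h7
                exact h6 (sq_one h7)
            · rw [if_neg h7, if_pos]
              · norm_num
              · rw [mul_inv_eq_one₀ hbk]
                exact psi_add ha3 hb3 h5 h6 h7
        · rintro ⟨h5, -⟩
          rcases hAB.1 h5 with h6 | h6
          · exact h3 h6
          · exact h4 h6

end

/-- **Piece GD.** -/
theorem t_GD : S_GD := by
  classical
  intro F _ _ _ _ n hn hq
  have : CharP F 2 := charP_of_injective_algebraMap (algebraMap (ZMod 2) F).injective 2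
  have hsq : ∀ x : F, chi F (x ^ 2) = chi F x := by
    intro x
    have h := chi_equiv (frobeniusEquiv F 2) x
    rwa [frobeniusEquiv_apply] at h
  refine ⟨G_zero, ?_, ?_, fun A B => ?_, ?_, ?_⟩
  · -- the sum
    have h1 : (∑ c : F, Nc c) = Fintype.card F := by
      unfold Nc
      rw [← card_univ, card_eq_sum_card_fiberwise (f := fun r : F => r ^ 3 + r) (t := univ)]
      intro r _
      exact mem_coe.2 (mem_univ _)
    simp only [Gf_eq]
    rw [sum_sub_distrib, ← Nat.cast_sum, h1, sum_const, card_univ]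
    simp
  · intro c hc
    obtain ⟨x, hx, hxc⟩ := ex_theta (io c)
    have hx1 : x ≠ 1 := by
      rintro rfl
      exact hc (c_zero hxc)
    rcases dich hq hx hxc with h | h
    · rw [G_fix hn hq hx hxc h, if_neg hx1]
      norm_num
    · rw [e_mu chi_ne_one hsq hc hx hxc h]
      ring
  · convert add_formula hn hq chi_ne_one hsq A B
  · intro c
    rw [Gf_eq, Gf_eq]
    congr 2
    unfold Nc
    symm
    apply card_bij (fun r _ => r ^ 2)
    · intro r hr
      rw [mem_filter] at hr ⊢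
      refine ⟨mem_univ _, ?_⟩
      rw [← hr.2, CharTwo.add_sq]
      ring
    · intro a _ b _ h
      exact sq_inj.1 h
    · intro b hb
      obtain ⟨a, rfl⟩ := exists_sq b
      refine ⟨a, ?_, rfl⟩
      rw [mem_filter] at hb ⊢
      refine ⟨mem_univ _, ?_⟩
      apply sq_inj.1
      rw [← hb.2, CharTwo.add_sq]
      ring
  · intro c
    rw [Gf_eq, map_sub, map_natCast, map_one]

end Pool.Agent.V7H58.BS
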